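import Pool.Agent.H945_Excise.Main

open MeasureTheory Set Pool.Agent.H945

/-- Relatively closed sets of zero length are removable for the approximation of Sobolev maps by
smooth diffeomorphisms, for all exponents below `n - 1`. -/
theorem Pool.Agent.Results.MP_f0515e_an.ZeroLengthRemovable.result
    (n : ℕ) (hn : 3 ≤ n) (p : ℝ) (hp : 1 ≤ p) (hpn : p < (n : ℝ) - 1)
    (Ω S C : Set (EuclideanSpace ℝ (Fin n))) (hΩ : IsOpen Ω) (hC : IsClosed C)
    (hS : S = Ω ∩ C) (hlen : Measure.hausdorffMeasure 1 S = 0)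
    (f : EuclideanSpace ℝ (Fin n) → EuclideanSpace ℝ (Fin n)) :
    ApproxByDiffeos p Ω f ↔ ApproxByDiffeos p (Ω \ S) f := by
  obtain ⟨k, rfl⟩ : ∃ k, n = k + 1 := ⟨n - 1, by omega⟩
  refine approx_iff_aux hp ?_ hΩ ?_ ?_ hlen f
  · push_cast at hpn
    linarith
  · rw [hS]; exact inter_subset_left
  · have : Ω \ S = Ω ∩ Cᶜ := by
      rw [hS]
      ext x
      constructor
      · rintro ⟨h1, h2⟩
        exact ⟨h1, fun h => h2 ⟨h1, h⟩⟩
      · rintro ⟨h1, h2⟩
        exact ⟨h1, fun h => h2 h.2⟩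
    rw [this]
    exact hΩ.inter hC.isOpen_compl
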